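import Pool.Agent.Helper40.PR.Defs3

/-! PR-E8B: `lin_of_F1_two` (helper39). -/

namespace PR

open ContinuousLinearMap InnerProductSpace Complex

open scoped ComplexConjugate

namespace E8B

/-- `x' = ± x` if all products agree -/
theorem pm_of_mul {x x' : Fin 3 → ℝ} (h : ∀ j k, x j * x k = x' j * x' k) :
    (∀ j, x' j = x j) ∨ (∀ j, x' j = -x j) := by
  by_cases h0 : ∀ j, x j = 0
  · left
    intro j
    have := h j j
    rw [h0 j, mul_zero] at this
    rw [h0 j]
    exact mul_self_eq_zero.1 this.symm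
  · push Not at h0
    obtain ⟨i, hi⟩ := h0
    rcases mul_self_eq_mul_self_iff.1 (h i i).symm with h1 | h1
    · left
      intro j
      have h2 := h i j
      rw [h1] at h2
      exact (mul_left_cancel₀ hi h2).symm
    · right
      intro j
      have h2 := h i j
      rw [h1] at h2
      have h3 : x i * x j = x i * (-x' j) := by rw [h2]; ring
      have := mul_left_cancel₀ hi h3
      rw [this]
      ring

/-- two planar families with the same Gram matrix -/
theorem gram_phase {t t' : Fin 3 → ℂ}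
    (h : ∀ i j, (t i * conj (t j)).re = (t' i * conj (t' j)).re) :
    ∃ η : ℂ, ‖η‖ = 1 ∧ ((∀ i, t' i = η * t i) ∨ (∀ i, t' i = η * conj (t i))) := by
  have hn : ∀ i, normSq (t i) = normSq (t' i) := by
    intro i
    have := h i i
    rw [mul_conj, mul_conj, ofReal_re, ofReal_re] at this
    exact this
  by_cases h0 : ∀ i, t i = 0
  · refine ⟨1, norm_one, Or.inl fun i => ?_⟩
    have := hn i
    rw [h0 i, map_zero] at this
    rw [h0 i, normSq_eq_zero.1 this.symm, mul_zero]
  · push Not at h0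
    obtain ⟨i, hi⟩ := h0
    have hi' : t' i ≠ 0 := by
      intro hcon
      have := hn i
      rw [hcon, map_zero, normSq_eq_zero] at this
      exact hi this
    have hnorm : ‖t i‖ = ‖t' i‖ := by
      have := hn i
      rw [normSq_eq_norm_sq, normSq_eq_norm_sq] at this
      exact (sq_eq_sq₀ (norm_nonneg _) (norm_nonneg _)).1 this
    have hre : ∀ j, (conj (t i) * t j).re = (conj (t' i) * t' j).re := by
      intro j
      have := h j i
      rw [mul_comm, this, mul_comm]
    have him := pm_of_mul (x := fun j => (conj (t i) * t j).im)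
      (x' := fun j => (conj (t' i) * t' j).im) (by
        intro j k
        have h1 : ∀ w z : ℂ, w.im * z.im = (w * conj z).re - w.re * z.re := by
          intro w z
          simp only [mul_re, conj_re, conj_im]
          ring
        have h2 : ∀ w z s : ℂ, ((conj s * w) * conj (conj s * z)).re =
            normSq s * (w * conj z).re := by
          intro w z s
          simp only [map_mul, mul_re, mul_im, conj_re, conj_im, normSq_apply, conj_conj]
          ring
        rw [h1, h1, h2, h2, hre, hre, h j k, hn i])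
    have hkey : (∀ j, conj (t' i) * t' j = conj (t i) * t j) ∨
        (∀ j, conj (t' i) * t' j = conj (conj (t i) * t j)) := by
      rcases him with him | him
      · exact Or.inl fun j => Complex.ext (hre j).symm (him j)
      · exact Or.inr fun j => Complex.ext (by rw [conj_re]; exact (hre j).symm)
          (by rw [conj_im]; exact him j)
    have hN : (t' i) * conj (t' i) = t i * conj (t i) := by
      rw [mul_conj, mul_conj, hn i]
    have hci : conj (t i) ≠ 0 := by simpa using hi
    have hci' : conj (t' i) ≠ 0 := by simpa using hi'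
    rcases hkey with hk | hk
    · refine ⟨t' i / t i, ?_, Or.inl fun j => ?_⟩
      · rw [norm_div, hnorm, div_self (norm_ne_zero_iff.2 hi')]
      · apply mul_left_cancel₀ hci'
        rw [hk j]
        field_simp
        linear_combination (-t j) * hN
    · refine ⟨t' i / conj (t i), ?_, Or.inr fun j => ?_⟩
      · rw [norm_div, RCLike.norm_conj, hnorm, div_self (norm_ne_zero_iff.2 hi')]
      · apply mul_left_cancel₀ hci'
        rw [hk j]
        rw [map_mul, conj_conj]
        field_simp
        linear_combination (-conj (t j)) * hN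

/-- off-diagonal entries in the basis adapted to `u e + v f` -/
noncomputable def P (a b c d u v : ℂ) : ℂ := -v * (u * a + v * b) + u * (u * c + v * d)

/-- the other one -/
noncomputable def Q (a b c d u v : ℂ) : ℂ :=
  conj u * (-conj v * a + conj u * b) + conj v * (-conj v * c + conj u * d)

theorem sq_of_max_mul {p q p' q' : ℝ} (hp : 0 ≤ p) (hq : 0 ≤ q) (hp' : 0 ≤ p') (hq' : 0 ≤ q')
    (hM : max p q = max p' q') (hm : p * q = p' * q') : p ^ 2 + q ^ 2 = p' ^ 2 + q' ^ 2 := by
  have key : ∀ a b : ℝ, a ^ 2 + b ^ 2 = max a b ^ 2 + min a b ^ 2 := by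
    intro a b
    rcases le_total a b with h | h
    · rw [max_eq_right h, min_eq_left h]; ring
    · rw [max_eq_left h, min_eq_right h]
  rw [key p q, key p' q', hM]
  congr 2
  rcases eq_or_lt_of_le (le_max_of_le_left hp' : 0 ≤ max p' q') with h0 | h0
  · have h1 : p = 0 := le_antisymm (by rw [h0, ← hM]; exact le_max_left _ _) hp
    have h2 : q = 0 := le_antisymm (by rw [h0, ← hM]; exact le_max_right _ _) hq
    have h3 : p' = 0 := le_antisymm (by rw [h0]; exact le_max_left _ _) hp'
    have h4 : q' = 0 := le_antisymm (by rw [h0]; exact le_max_right _ _) hq'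
    rw [h1, h2, h3, h4]
  · apply mul_left_cancel₀ h0.ne'
    rw [max_mul_min, ← hM, max_mul_min, hm]

/-- the Gram matrix is determined by the sums of squares -/
theorem gram_eq {a b c d a' b' c' d' : ℂ}
    (h : ∀ u v : ℂ, normSq (P a b c d u v) + normSq (Q a b c d u v) =
      normSq (P a' b' c' d' u v) + normSq (Q a' b' c' d' u v)) :
    ((b + c) * conj (b + c)).re = ((b' + c') * conj (b' + c')).re ∧
    ((b + c) * conj (I * (b - c))).re = ((b' + c') * conj (I * (b' - c'))).re ∧
    ((b + c) * conj (a - d)).re = ((b' + c') * conj (a' - d')).re ∧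
    ((I * (b - c)) * conj (I * (b - c))).re = ((I * (b' - c')) * conj (I * (b' - c'))).re ∧
    ((I * (b - c)) * conj (a - d)).re = ((I * (b' - c')) * conj (a' - d')).re ∧
    ((a - d) * conj (a - d)).re = ((a' - d') * conj (a' - d')).re := by
  have e1 := h 1 0
  have e2 := h 1 1
  have e3 := h 1 I
  have e4 := h 2 1
  have e5 := h 2 I
  have e6 := h 2 (1 + I)
  simp only [P, Q, normSq_apply, mul_re, mul_im, add_re, add_im, neg_re, neg_im,
    one_re, one_im, zero_re, zero_im, I_re, I_im, re_ofNat, im_ofNat, map_add, map_one, map_zero,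
    conj_I, map_ofNat] at e1 e2 e3 e4 e5 e6
  simp only [mul_re, mul_im, add_re, add_im, sub_re, sub_im, conj_re, conj_im, I_re, I_im]
  refine ⟨?_, ?_, ?_, ?_, ?_, ?_⟩
  · linear_combination e1 - 1 / 4 * e2 + 1 / 4 * e3
  · linear_combination -1 / 2 * e1 + 1 / 12 * e2 + 1 / 12 * e3 + 1 / 24 * e4 + 1 / 24 * e5 -
      1 / 16 * e6
  · linear_combination 3 / 4 * e1 + 1 / 3 * e2 - 1 / 12 * e4
  · linear_combination e1 + 1 / 4 * e2 - 1 / 4 * e3
  · linear_combination 3 / 4 * e1 + 1 / 3 * e3 - 1 / 12 * e5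
  · linear_combination -e1 + 1 / 4 * e2 + 1 / 4 * e3

theorem re_mul_conj_comm (z w : ℂ) : (z * conj w).re = (w * conj z).re := by
  simp only [mul_re, conj_re, conj_im]
  ring

/-- entries: `T' = η T + β` or `η T† + β` -/
theorem entries {a b c d a' b' c' d' : ℂ}
    (h : ∀ u v : ℂ, normSq (P a b c d u v) + normSq (Q a b c d u v) =
      normSq (P a' b' c' d' u v) + normSq (Q a' b' c' d' u v)) :
    ∃ η : ℂ, ‖η‖ = 1 ∧ ((b' = η * b ∧ c' = η * c ∧ a' - d' = η * (a - d)) ∨
      (b' = η * conj c ∧ c' = η * conj b ∧ a' - d' = η * (conj a - conj d))) := by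
  obtain ⟨g00, g01, g02, g11, g12, g22⟩ := gram_eq h
  obtain ⟨η, hη, hc⟩ := gram_phase (t := ![b + c, I * (b - c), a - d])
    (t' := ![b' + c', I * (b' - c'), a' - d']) (by
      intro i j
      fin_cases i <;> fin_cases j
      · exact g00
      · exact g01
      · exact g02
      · change ((I * (b - c)) * conj (b + c)).re = ((I * (b' - c')) * conj (b' + c')).re
        rw [re_mul_conj_comm, g01, re_mul_conj_comm]
      · exact g11
      · exact g12
      · change ((a - d) * conj (b + c)).re = ((a' - d') * conj (b' + c')).re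
        rw [re_mul_conj_comm, g02, re_mul_conj_comm]
      · change ((a - d) * conj (I * (b - c))).re = ((a' - d') * conj (I * (b' - c'))).re
        rw [re_mul_conj_comm, g12, re_mul_conj_comm]
      · exact g22)
  refine ⟨η, hη, ?_⟩
  rcases hc with hc | hc
  · left
    have h0 : b' + c' = η * (b + c) := hc 0
    have h1 : I * (b' - c') = η * (I * (b - c)) := hc 1
    have h2 : a' - d' = η * (a - d) := hc 2
    have h3 : b' - c' = η * (b - c) := by
      apply mul_left_cancel₀ I_ne_zero
      rw [h1]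
      ring
    exact ⟨by linear_combination (h0 + h3) / 2, by linear_combination (h0 - h3) / 2, h2⟩
  · right
    have h0 : b' + c' = η * conj (b + c) := hc 0
    have h1 : I * (b' - c') = η * conj (I * (b - c)) := hc 1
    have h2 : a' - d' = η * conj (a - d) := hc 2
    rw [map_add] at h0
    rw [map_mul, conj_I, map_sub] at h1
    rw [map_sub] at h2
    have h3 : b' - c' = -(η * (conj b - conj c)) := by
      apply mul_left_cancel₀ I_ne_zero
      rw [h1]
      ring
    exact ⟨by linear_combination (h0 + h3) / 2, by linear_combination (h0 - h3) / 2, h2⟩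

end E8B

section main

variable {H : Type*} [NormedAddCommGroup H] [InnerProductSpace ℂ H]

/-- dimension at most one: vectors are multiples of a unit vector -/
theorem eq_smul_of_not_dim2 (hH : ¬ Dim2 H) {e : H} (he : ‖e‖ = 1) (x : H) :
    x = inner ℂ e x • e := by
  by_contra hcon
  apply hH
  have hee : inner ℂ e e = (1 : ℂ) := by
    rw [inner_self_eq_norm_sq_to_K, he]
    norm_num
  refine ⟨![e, x - inner ℂ e x • e], linearIndependent_of_ne_zero_of_inner_eq_zero (𝕜 := ℂ)
    (fun i => ?_) (fun i j hij => ?_)⟩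
  · fin_cases i
    · change e ≠ 0
      intro h0
      rw [h0, norm_zero] at he
      exact zero_ne_one he
    · change x - inner ℂ e x • e ≠ 0
      exact sub_ne_zero.2 hcon
  · have h1 : inner ℂ e (x - inner ℂ e x • e) = (0 : ℂ) := by
      rw [inner_sub_right, inner_smul_right, hee, mul_one, sub_self]
    fin_cases i <;> fin_cases j
    · exact absurd rfl hij
    · exact h1
    · change inner ℂ (x - inner ℂ e x • e) e = (0 : ℂ)
      rw [← inner_conj_symm, h1, map_zero]
    · exact absurd rfl hij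

theorem exists_unit_mul {z : H} (hz : z ≠ 0) :
    ∃ k : ℂ, k ≠ 0 ∧ inner ℂ (k • z) (k • z) = (1 : ℂ) := by
  have hz' : ‖z‖ ≠ 0 := norm_ne_zero_iff.2 hz
  refine ⟨((‖z‖⁻¹ : ℝ) : ℂ), by exact_mod_cast inv_ne_zero hz', ?_⟩
  rw [inner_smul_left, inner_smul_right, inner_self_eq_norm_sq_to_K, conj_ofReal]
  have h1 : ((‖z‖⁻¹ : ℝ) : ℂ) * (((‖z‖⁻¹ : ℝ) : ℂ) * ((‖z‖ : ℝ) : ℂ) ^ 2) =
      ((‖z‖⁻¹ * (‖z‖⁻¹ * ‖z‖ ^ 2) : ℝ) : ℂ) := by push_cast; ring
  refine h1.trans ?_
  have h2 : ‖z‖⁻¹ * (‖z‖⁻¹ * ‖z‖ ^ 2) = 1 := by field_simp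
  rw [h2, ofReal_one]

theorem norm_of_inner_one {x : H} (h : inner ℂ x x = (1 : ℂ)) : ‖x‖ = 1 := by
  rw [norm_eq_sqrt_re_inner (𝕜 := ℂ) x, h]
  simp

/-- an orthonormal basis in dimension two -/
theorem exists_basis_two (hH : Dim2 H) (hH' : ¬ Dim3 H) : ∃ e f : H, inner ℂ e e = (1 : ℂ) ∧
    inner ℂ f f = (1 : ℂ) ∧ inner ℂ e f = (0 : ℂ) ∧ inner ℂ f e = (0 : ℂ) ∧
    ∀ x : H, x = inner ℂ e x • e + inner ℂ f x • f := by
  obtain ⟨v, hv⟩ := hH
  have hv0 : v 0 ≠ 0 := hv.ne_zero 0
  obtain ⟨k, hk, hee'⟩ := exists_unit_mul hv0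
  obtain ⟨e, he⟩ : ∃ e : H, e = k • v 0 := ⟨_, rfl⟩
  have hee : inner ℂ e e = (1 : ℂ) := by rw [he]; exact hee'
  have hg0 : v 1 - inner ℂ e (v 1) • e ≠ 0 := by
    intro h0
    rw [sub_eq_zero] at h0
    have h2 : v = ![v 0, v 1] := by
      ext i
      fin_cases i <;> rfl
    rw [h2] at hv
    have h1 := (LinearIndependent.pair_iff.1 hv (inner ℂ e (v 1) * k) (-1) (by
      rw [mul_smul, ← he, ← h0, neg_one_smul, add_neg_cancel])).2
    norm_num at h1
  have heg : inner ℂ e (v 1 - inner ℂ e (v 1) • e) = (0 : ℂ) := by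
    rw [inner_sub_right, inner_smul_right, hee, mul_one, sub_self]
  obtain ⟨m, hm, hff'⟩ := exists_unit_mul hg0
  obtain ⟨f, hf⟩ : ∃ f : H, f = m • (v 1 - inner ℂ e (v 1) • e) := ⟨_, rfl⟩
  have hff : inner ℂ f f = (1 : ℂ) := by rw [hf]; exact hff'
  have hef : inner ℂ e f = (0 : ℂ) := by rw [hf, inner_smul_right, heg, mul_zero]
  have hfe : inner ℂ f e = (0 : ℂ) := by rw [← inner_conj_symm, hef, map_zero]
  refine ⟨e, f, hee, hff, hef, hfe, fun x => ?_⟩
  by_contra hcon
  apply hH'
  obtain ⟨z, hz⟩ : ∃ z : H, z = x - (inner ℂ e x • e + inner ℂ f x • f) := ⟨_, rfl⟩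
  have hz0 : z ≠ 0 := by rw [hz]; exact sub_ne_zero.2 hcon
  have hez : inner ℂ e z = (0 : ℂ) := by
    rw [hz, inner_sub_right, inner_add_right, inner_smul_right, inner_smul_right, hee, hef]
    ring
  have hfz : inner ℂ f z = (0 : ℂ) := by
    rw [hz, inner_sub_right, inner_add_right, inner_smul_right, inner_smul_right, hff, hfe]
    ring
  have hze : inner ℂ z e = (0 : ℂ) := by rw [← inner_conj_symm, hez, map_zero]
  have hzf : inner ℂ z f = (0 : ℂ) := by rw [← inner_conj_symm, hfz, map_zero]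
  refine ⟨![e, f, z], linearIndependent_of_ne_zero_of_inner_eq_zero (𝕜 := ℂ)
    (fun i => ?_) (fun i j hij => ?_)⟩
  · fin_cases i
    · change e ≠ 0
      intro h0
      rw [h0, inner_zero_left] at hee
      exact zero_ne_one hee
    · change f ≠ 0
      intro h0
      rw [h0, inner_zero_left] at hff
      exact zero_ne_one hff
    · exact hz0
  · fin_cases i <;> fin_cases j
    · exact absurd rfl hij
    · exact hef
    · exact hez
    · exact hfe
    · exact absurd rfl hij
    · exact hfz
    · exact hze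
    · exact hzf
    · exact absurd rfl hij

section basis

variable {e f : H} (hee : inner ℂ e e = (1 : ℂ)) (hff : inner ℂ f f = (1 : ℂ))
  (hef : inner ℂ e f = (0 : ℂ)) (hfe : inner ℂ f e = (0 : ℂ))
  (hx : ∀ x : H, x = inner ℂ e x • e + inner ℂ f x • f)

include hee hff hef hfe in
theorem inner_comb (p q r s : ℂ) :
    inner ℂ (p • e + q • f) (r • e + s • f) = conj p * r + conj q * s := by
  rw [inner_add_left, inner_add_right, inner_add_right, inner_smul_left, inner_smul_left,
    inner_smul_left, inner_smul_left, inner_smul_right, inner_smul_right, inner_smul_right,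
    inner_smul_right, hee, hff, hef, hfe]
  ring

include hx in
theorem apply_comb (A : H →L[ℂ] H) (u v : ℂ) : A (u • e + v • f) =
    (u * inner ℂ e (A e) + v * inner ℂ e (A f)) • e +
      (u * inner ℂ f (A e) + v * inner ℂ f (A f)) • f := by
  rw [map_add, map_smul, map_smul]
  conv_lhs => rw [hx (A e), hx (A f)]
  module

include hee hff hef hfe hx in
theorem inner_P (A : H →L[ℂ] H) (u v : ℂ) :
    inner ℂ ((-conj v) • e + conj u • f) (A (u • e + v • f)) =
      E8B.P (inner ℂ e (A e)) (inner ℂ e (A f)) (inner ℂ f (A e)) (inner ℂ f (A f)) u v := by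
  rw [apply_comb hx, inner_comb hee hff hef hfe, E8B.P, map_neg, conj_conj, conj_conj]

include hee hff hef hfe hx in
theorem inner_Q (A : H →L[ℂ] H) (u v : ℂ) :
    inner ℂ (u • e + v • f) (A ((-conj v) • e + conj u • f)) =
      E8B.Q (inner ℂ e (A e)) (inner ℂ e (A f)) (inner ℂ f (A e)) (inner ℂ f (A f)) u v := by
  rw [apply_comb hx, inner_comb hee hff hef hfe, E8B.Q]

include hee hff hef hfe hx in
theorem inner_V (A : H →L[ℂ] H) (u v : ℂ) (huv : conj u * u + conj v * v = 1) :
    inner ℂ (u • e + v • f) (A (A (u • e + v • f))) -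
      inner ℂ (u • e + v • f) (A (u • e + v • f)) ^ 2 =
      E8B.P (inner ℂ e (A e)) (inner ℂ e (A f)) (inner ℂ f (A e)) (inner ℂ f (A f)) u v *
      E8B.Q (inner ℂ e (A e)) (inner ℂ e (A f)) (inner ℂ f (A e)) (inner ℂ f (A f)) u v := by
  rw [apply_comb hx A u v, apply_comb hx, inner_comb hee hff hef hfe,
    inner_comb hee hff hef hfe, E8B.P, E8B.Q]
  generalize inner ℂ e (A e) = a
  generalize inner ℂ e (A f) = b
  generalize inner ℂ f (A e) = c
  generalize inner ℂ f (A f) = d
  generalize hcu : conj u = u'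
  generalize hcv : conj v = v'
  rw [hcu, hcv] at huv
  linear_combination (-(u' * ((u * a + v * b) * a + (u * c + v * d) * b) +
    v' * ((u * a + v * b) * c + (u * c + v * d) * d))) * huv

include hx in
theorem op_ext {A B : H →L[ℂ] H} (h1 : A e = B e) (h2 : A f = B f) : A = B := by
  ext x
  rw [hx x, map_add, map_add, map_smul, map_smul, map_smul, map_smul, h1, h2]

include hee hff hef hfe hx in
theorem sums_eq {T T' : H →L[ℂ] H}
    (h : ∀ x y, inner ℂ x y = 0 → max ‖inner ℂ y (T x)‖ ‖inner ℂ x (T y)‖ =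
      max ‖inner ℂ y (T' x)‖ ‖inner ℂ x (T' y)‖)
    (hV : ∀ x : H, ‖x‖ = 1 → ‖inner ℂ x (T (T x)) - inner ℂ x (T x) ^ 2‖ =
      ‖inner ℂ x (T' (T' x)) - inner ℂ x (T' x) ^ 2‖) (u v : ℂ) :
    normSq (E8B.P (inner ℂ e (T e)) (inner ℂ e (T f)) (inner ℂ f (T e)) (inner ℂ f (T f)) u v) +
      normSq (E8B.Q (inner ℂ e (T e)) (inner ℂ e (T f)) (inner ℂ f (T e)) (inner ℂ f (T f)) u v) =
    normSq (E8B.P (inner ℂ e (T' e)) (inner ℂ e (T' f)) (inner ℂ f (T' e)) (inner ℂ f (T' f)) u v) +
      normSq (E8B.Q (inner ℂ e (T' e)) (inner ℂ e (T' f)) (inner ℂ f (T' e))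
        (inner ℂ f (T' f)) u v) := by
  have hort : inner ℂ (u • e + v • f) ((-conj v) • e + conj u • f) = (0 : ℂ) := by
    rw [inner_comb hee hff hef hfe]
    ring
  have hmax := h _ _ hort
  rw [inner_P hee hff hef hfe hx, inner_P hee hff hef hfe hx, inner_Q hee hff hef hfe hx,
    inner_Q hee hff hef hfe hx] at hmax
  have hprod : ‖E8B.P (inner ℂ e (T e)) (inner ℂ e (T f)) (inner ℂ f (T e)) (inner ℂ f (T f)) u v‖ *
      ‖E8B.Q (inner ℂ e (T e)) (inner ℂ e (T f)) (inner ℂ f (T e)) (inner ℂ f (T f)) u v‖ =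
      ‖E8B.P (inner ℂ e (T' e)) (inner ℂ e (T' f)) (inner ℂ f (T' e)) (inner ℂ f (T' f)) u v‖ *
      ‖E8B.Q (inner ℂ e (T' e)) (inner ℂ e (T' f)) (inner ℂ f (T' e)) (inner ℂ f (T' f)) u v‖ := by
    by_cases h0 : u = 0 ∧ v = 0
    · rw [h0.1, h0.2]
      simp [E8B.P, E8B.Q]
    · have hr2 : 0 < normSq u + normSq v := by
        by_contra hcon
        apply h0
        have h1 := normSq_nonneg u
        have h2 := normSq_nonneg v
        exact ⟨normSq_eq_zero.1 (by linarith), normSq_eq_zero.1 (by linarith)⟩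
      obtain ⟨r, hr0, hr⟩ : ∃ r : ℝ, 0 < r ∧ r * r = normSq u + normSq v :=
        ⟨Real.sqrt (normSq u + normSq v), Real.sqrt_pos.2 hr2, Real.mul_self_sqrt hr2.le⟩
      have hrc : (r : ℂ) ≠ 0 := by exact_mod_cast hr0.ne'
      have hrcc : (r : ℂ) * r = conj u * u + conj v * v := by
        rw [mul_comm (conj u), mul_comm (conj v), mul_conj, mul_conj]
        exact_mod_cast hr
      obtain ⟨u₁, hu₁⟩ : ∃ u₁ : ℂ, u = r * u₁ := ⟨u / r, by field_simp⟩
      obtain ⟨v₁, hv₁⟩ : ∃ v₁ : ℂ, v = r * v₁ := ⟨v / r, by field_simp⟩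
      have huv : conj u₁ * u₁ + conj v₁ * v₁ = 1 := by
        have h1 : (r : ℂ) * r * (conj u₁ * u₁ + conj v₁ * v₁) = (r : ℂ) * r * 1 := by
          rw [mul_one]
          conv_rhs => rw [hrcc, hu₁, hv₁]
          rw [map_mul, map_mul, conj_ofReal]
          ring
        exact mul_left_cancel₀ (mul_ne_zero hrc hrc) h1
      have hunit : ‖u₁ • e + v₁ • f‖ = 1 := by
        apply norm_of_inner_one
        rw [inner_comb hee hff hef hfe, huv]
      have hv1 := hV _ hunit
      rw [inner_V hee hff hef hfe hx T u₁ v₁ huv, inner_V hee hff hef hfe hx T' u₁ v₁ huv] at hv1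
      have hhP : ∀ a b c d : ℂ, E8B.P a b c d u v = (r : ℂ) * r * E8B.P a b c d u₁ v₁ := by
        intro a b c d
        rw [hu₁, hv₁, E8B.P, E8B.P]
        ring
      have hhQ : ∀ a b c d : ℂ, E8B.Q a b c d u v = (r : ℂ) * r * E8B.Q a b c d u₁ v₁ := by
        intro a b c d
        rw [hu₁, hv₁, E8B.Q, E8B.Q, map_mul, map_mul, conj_ofReal]
        ring
      rw [hhP, hhQ, hhP, hhQ, ← norm_mul, ← norm_mul]
      have h3 : ∀ x y : ℂ, (r : ℂ) * r * x * ((r : ℂ) * r * y) = (r : ℂ) ^ 4 * (x * y) := by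
        intro x y
        ring
      rw [h3, h3, norm_mul, norm_mul _ (E8B.P _ _ _ _ _ _ * E8B.Q _ _ _ _ _ _), hv1]
  rw [normSq_eq_norm_sq, normSq_eq_norm_sq, normSq_eq_norm_sq, normSq_eq_norm_sq]
  exact E8B.sq_of_max_mul (norm_nonneg _) (norm_nonneg _) (norm_nonneg _) (norm_nonneg _)
    hmax hprod

end basis

end main

theorem lin_of_F1_two {H} [NormedAddCommGroup H] [InnerProductSpace ℂ H] [CompleteSpace H]
    (hH : ¬ Dim3 H) {T T' : H →L[ℂ] H}
    (h : ∀ x y, inner ℂ x y = 0 → max ‖inner ℂ y (T x)‖ ‖inner ℂ x (T y)‖ =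
      max ‖inner ℂ y (T' x)‖ ‖inner ℂ x (T' y)‖)
    (hV : ∀ x : H, ‖x‖ = 1 → ‖inner ℂ x (T (T x)) - inner ℂ x (T x) ^ 2‖ =
      ‖inner ℂ x (T' (T' x)) - inner ℂ x (T' x) ^ 2‖) :
    ∃ α β : ℂ, ‖α‖ = 1 ∧ (T' = α • T + β • (1 : H →L[ℂ] H) ∨
      T' = α • adjoint T + β • (1 : H →L[ℂ] H)) := by
  by_cases h2 : Dim2 H
  · obtain ⟨e, f, hee, hff, hef, hfe, hx⟩ := exists_basis_two h2 hH
    obtain ⟨η, hη, hc⟩ := E8B.entries (sums_eq hee hff hef hfe hx h hV)
    rcases hc with ⟨hb, hc, hd⟩ | ⟨hb, hc, hd⟩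
    · refine ⟨η, inner ℂ e (T' e) - η * inner ℂ e (T e), hη, Or.inl ?_⟩
      apply op_ext hx
      · rw [add_apply, smul_apply, smul_apply, one_apply_eq_self]
        have h1 := hx (T e)
        have h2 := hx (T' e)
        rw [hc] at h2
        generalize inner ℂ e (T e) = a at h1 ⊢
        generalize inner ℂ f (T e) = c at h1 h2 ⊢
        generalize inner ℂ e (T' e) = a' at h2 ⊢
        rw [h1, h2]
        module
      · rw [add_apply, smul_apply, smul_apply, one_apply_eq_self]
        have h1 := hx (T f)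
        have h2 := hx (T' f)
        have h3 : inner ℂ f (T' f) = η * inner ℂ f (T f) +
            (inner ℂ e (T' e) - η * inner ℂ e (T e)) := by linear_combination -hd
        rw [hb, h3] at h2
        generalize inner ℂ e (T e) = a at h2 ⊢
        generalize inner ℂ e (T f) = b at h1 h2
        generalize inner ℂ f (T f) = d at h1 h2
        generalize inner ℂ e (T' e) = a' at h2 ⊢
        rw [h1, h2]
        module
    · have A1 : inner ℂ e (adjoint T e) = conj (inner ℂ e (T e)) := by
        rw [adjoint_inner_right, inner_conj_symm]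
      have A2 : inner ℂ e (adjoint T f) = conj (inner ℂ f (T e)) := by
        rw [adjoint_inner_right, inner_conj_symm]
      have A3 : inner ℂ f (adjoint T e) = conj (inner ℂ e (T f)) := by
        rw [adjoint_inner_right, inner_conj_symm]
      have A4 : inner ℂ f (adjoint T f) = conj (inner ℂ f (T f)) := by
        rw [adjoint_inner_right, inner_conj_symm]
      refine ⟨η, inner ℂ e (T' e) - η * conj (inner ℂ e (T e)), hη, Or.inr ?_⟩
      apply op_ext hx
      · rw [add_apply, smul_apply, smul_apply, one_apply_eq_self]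
        have h1 := hx (adjoint T e)
        have h2 := hx (T' e)
        rw [hc] at h2
        rw [A1, A3] at h1
        generalize conj (inner ℂ e (T e)) = a at h1 ⊢
        generalize conj (inner ℂ e (T f)) = c at h1 h2
        generalize inner ℂ e (T' e) = a' at h2 ⊢
        rw [h1, h2]
        module
      · rw [add_apply, smul_apply, smul_apply, one_apply_eq_self]
        have h1 := hx (adjoint T f)
        have h2 := hx (T' f)
        have h3 : inner ℂ f (T' f) = η * conj (inner ℂ f (T f)) +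
            (inner ℂ e (T' e) - η * conj (inner ℂ e (T e))) := by linear_combination -hd
        rw [hb, h3] at h2
        rw [A2, A4] at h1
        generalize conj (inner ℂ e (T e)) = a at h2 ⊢
        generalize conj (inner ℂ f (T e)) = b at h1 h2
        generalize conj (inner ℂ f (T f)) = d at h1 h2
        generalize inner ℂ e (T' e) = a' at h2 ⊢
        rw [h1, h2]
        module
  · by_cases hs : Subsingleton H
    · refine ⟨1, 0, norm_one, Or.inl ?_⟩
      ext x
      exact Subsingleton.elim _ _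
    · rw [not_subsingleton_iff_nontrivial] at hs
      obtain ⟨z, hz⟩ := exists_ne (0 : H)
      obtain ⟨k, hk, hkk⟩ := exists_unit_mul hz
      obtain ⟨e, he⟩ : ∃ e : H, e = k • z := ⟨_, rfl⟩
      rw [← he] at hkk
      have hen : ‖e‖ = 1 := norm_of_inner_one hkk
      have hx := eq_smul_of_not_dim2 h2 hen
      refine ⟨1, inner ℂ e (T' e) - inner ℂ e (T e), norm_one, Or.inl ?_⟩
      ext x
      have h1 := hx (T e)
      have h2 := hx (T' e)
      generalize inner ℂ e (T e) = a at h1 ⊢
      generalize inner ℂ e (T' e) = a' at h2 ⊢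
      rw [add_apply, smul_apply, smul_apply, one_apply_eq_self, hx x, map_smul, map_smul, h1, h2]
      module

end PR
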